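import Mathlib
import Pool.Agent.H55.Uat2

set_option autoImplicit false

namespace Pool.Agent.Results.MP_eb20fa_an.Carleson

open Pool.Agent.H55.HNDefs in
theorem result (φ : ℂ → ℂ) (hφ : DifferentiableOn ℂ φ (Metric.ball 0 1))
    (hm : Set.MapsTo φ (Metric.ball 0 1) (Metric.ball 0 1)) :
    CompUAT φ ↔ ∀ ε : ℝ, ε > 0 → ∃ δ : ℝ, δ > 0 ∧ ∀ ξ : ℂ, ‖ξ‖ = 1 → ∀ h : ℝ, 0 < h → h < δ →
      MeasureTheory.volume (Win φ ξ h) ≤ ENNReal.ofReal (ε * h) :=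
  Pool.Agent.H55.Sat.uat φ hφ hm

end Pool.Agent.Results.MP_eb20fa_an.Carleson
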